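import Pool.Agent.Helper68.DS.Goals

set_option autoImplicit false

/-!
# MP_52cd29_ag: the limit argument for one plane (`STEPLIM`)
-/

namespace Pool.Agent.Helper9.DS

open MvPolynomial Pool.Agent.Helper68.DS

/-- The determinant of a matrix of linear forms is homogeneous. -/
theorem isHomogeneous_det {n k : ℕ} (M : Matrix (Fin k) (Fin k) (MvPolynomial (Fin n) ℂ))
    (hM : IsLin M) : M.det.IsHomogeneous k := by
  rw [Matrix.det_apply]
  apply IsHomogeneous.sum
  intro σ _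
  have h1 : (∏ i, M (σ i) i).IsHomogeneous (∑ _i : Fin k, 1) := by
    apply IsHomogeneous.prod
    intro i _
    exact hM _ _
  simp only [Finset.sum_const, Finset.card_univ, Fintype.card_fin, smul_eq_mul, mul_one] at h1
  rcases Int.units_eq_one_or (Equiv.Perm.sign σ) with h | h
  · rw [h, one_smul]; exact h1
  · rw [h, Units.neg_smul, one_smul]; exact h1.neg

/-- The entries of the adjugate of a matrix of linear forms are homogeneous. -/
theorem isHomogeneous_adjugate {n k : ℕ}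
    (M : Matrix (Fin (k + 1)) (Fin (k + 1)) (MvPolynomial (Fin n) ℂ))
    (hM : IsLin M) (a b : Fin (k + 1)) : (M.adjugate a b).IsHomogeneous k := by
  rw [Matrix.adjugate_fin_succ_eq_det_submatrix]
  have h2 : (M.submatrix b.succAbove a.succAbove).det.IsHomogeneous k :=
    isHomogeneous_det _ (fun _ _ => hM _ _)
  rcases Nat.even_or_odd ((b : ℕ) + a) with h | h
  · rw [h.neg_one_pow, one_mul]; exact h2
  · rw [h.neg_one_pow, neg_one_mul]; exact h2.neg

theorem isHomogeneous_X_mul_adjugate {n k : ℕ}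
    (M : Matrix (Fin k) (Fin k) (MvPolynomial (Fin n) ℂ))
    (hM : IsLin M) (j : Fin n) (a b : Fin k) :
    (X j * M.adjugate a b : MvPolynomial (Fin n) ℂ).IsHomogeneous k := by
  cases k with
  | zero => exact a.elim0
  | succ k =>
    have h := (isHomogeneous_X ℂ j).mul (isHomogeneous_adjugate M hM a b)
    rwa [add_comm 1 k] at h

theorem isHomogeneous_ell (μ : ℂ) : (ell μ).IsHomogeneous 1 := by
  unfold ell
  refine (isHomogeneous_X ℂ _).sub ?_
  exact isHomogeneous_C_mul_X _ _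

theorem TT_le_HS {k : ℕ} (M : Matrix (Fin k) (Fin k) (MvPolynomial (Fin 4) ℂ)) (hM : IsLin M) :
    TT M ≤ HS 4 k := by
  unfold TT
  rw [Submodule.span_le]
  rintro _ ⟨p, rfl⟩
  exact isHomogeneous_X_mul_adjugate M hM _ _ _

/-- The index set of the frame. -/
abbrev Ix (m s : ℕ) : Type :=
  (Fin s × Fin 4 × Fin (m + 1)) ⊕ ((Fin s × Fin 4 × Fin (m + 1)) ⊕ (Fin s × Fin 4 × Fin m × Fin m))

/-- The frame. -/
noncomputable def Fr {m s : ℕ} (μ : ℂ)
    (M : Fin s → Matrix (Fin (m + 1)) (Fin (m + 1)) (MvPolynomial (Fin 4) ℂ)) :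
    Ix m s → ℂ → MvPolynomial (Fin 4) ℂ
  | Sum.inl p, _ => X p.2.1 * (M p.1).adjugate 0 p.2.2
  | Sum.inr (Sum.inl p), _ => X p.2.1 * (M p.1).adjugate p.2.2 0
  | Sum.inr (Sum.inr p), t =>
      ell μ * (X p.2.1 * ((M p.1).submatrix Fin.succ Fin.succ).adjugate p.2.2.1 p.2.2.2) +
        t • (X p.2.1 * (M p.1).adjugate p.2.2.1.succ p.2.2.2.succ)

/-- The matrices of the limit argument. -/
noncomputable def GG {m s : ℕ} (μ : ℂ)
    (M : Fin s → Matrix (Fin (m + 1)) (Fin (m + 1)) (MvPolynomial (Fin 4) ℂ)) (t : ℂ) (i : Fin s) :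
    Matrix (Fin (m + 1)) (Fin (m + 1)) (MvPolynomial (Fin 4) ℂ) :=
  M i + Matrix.single 0 0 (t⁻¹ • ell μ)

theorem GG_lin {m s : ℕ} (μ : ℂ)
    (M : Fin s → Matrix (Fin (m + 1)) (Fin (m + 1)) (MvPolynomial (Fin 4) ℂ))
    (hM : ∀ i, IsLin (M i)) (t : ℂ) (i : Fin s) : IsLin (GG μ M t i) := by
  intro a b
  unfold GG
  rw [Matrix.add_apply]
  refine (hM i a b).add ?_
  rw [Matrix.single_apply]
  split_ifs
  · exact (homogeneousSubmodule (Fin 4) ℂ 1).smul_mem _ (isHomogeneous_ell μ)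
  · exact isHomogeneous_zero _ _ _

theorem Fr_HS {m s : ℕ} (μ : ℂ)
    (M : Fin s → Matrix (Fin (m + 1)) (Fin (m + 1)) (MvPolynomial (Fin 4) ℂ))
    (hM : ∀ i, IsLin (M i)) (x : Ix m s) (t : ℂ) : Fr μ M x t ∈ HS 4 (m + 1) := by
  rcases x with p | p | p
  · exact isHomogeneous_X_mul_adjugate _ (hM _) _ _ _
  · exact isHomogeneous_X_mul_adjugate _ (hM _) _ _ _
  · refine Submodule.add_mem _ ?_ (Submodule.smul_mem _ _
      (isHomogeneous_X_mul_adjugate _ (hM _) _ _ _))
    have h1 := (isHomogeneous_ell μ).mul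
      (isHomogeneous_X_mul_adjugate ((M p.1).submatrix Fin.succ Fin.succ)
        (fun a b => hM p.1 a.succ b.succ) p.2.1 p.2.2.1 p.2.2.2)
    rw [add_comm 1 m] at h1
    exact h1

theorem Fr_TT (h5 : ADJ1_stmt) {m s : ℕ} (μ : ℂ)
    (M : Fin s → Matrix (Fin (m + 1)) (Fin (m + 1)) (MvPolynomial (Fin 4) ℂ))
    (x : Ix m s) (t : ℂ) (ht : t ≠ 0) : Fr μ M x t ∈ ⨆ i, TT (GG μ M t i) := by
  have hin : ∀ (i : Fin s) (j : Fin 4) (a b : Fin (m + 1)),
      X j * (GG μ M t i).adjugate a b ∈ ⨆ i, TT (GG μ M t i) := by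
    intro i j a b
    exact Submodule.mem_iSup_of_mem i (Submodule.subset_span ⟨(j, a, b), rfl⟩)
  rcases x with p | p | p
  · have h := hin p.1 p.2.1 0 p.2.2
    unfold GG at h
    rw [(h5 _ m (M p.1) (t⁻¹ • ell μ)).1] at h
    exact h
  · have h := hin p.1 p.2.1 p.2.2 0
    unfold GG at h
    rw [(h5 _ m (M p.1) (t⁻¹ • ell μ)).2.1] at h
    exact h
  · have h := hin p.1 p.2.1 p.2.2.1.succ p.2.2.2.succ
    unfold GG at h
    rw [(h5 _ m (M p.1) (t⁻¹ • ell μ)).2.2] at h
    have h' := Submodule.smul_mem _ t h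
    have e : t • (X p.2.1 * ((M p.1).adjugate p.2.2.1.succ p.2.2.2.succ +
        t⁻¹ • ell μ * ((M p.1).submatrix Fin.succ Fin.succ).adjugate p.2.2.1 p.2.2.2)) =
        Fr μ M (Sum.inr (Sum.inr p)) t := by
      show _ = ell μ * (X p.2.1 * ((M p.1).submatrix Fin.succ Fin.succ).adjugate p.2.2.1 p.2.2.2) +
        t • (X p.2.1 * (M p.1).adjugate p.2.2.1.succ p.2.2.2.succ)
      rw [mul_add, smul_add, add_comm]
      congr 1
      rw [smul_mul_assoc, mul_smul_comm, smul_smul, mul_inv_cancel₀ ht, one_smul]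
      ring
    rw [e] at h'
    exact h'

theorem Fr_poly (h1 : PM_stmt) {m s : ℕ} (μ : ℂ)
    (M : Fin s → Matrix (Fin (m + 1)) (Fin (m + 1)) (MvPolynomial (Fin 4) ℂ))
    (x : Ix m s) : IsPolyMap (Fr μ M x) := by
  rcases x with p | p | p
  · exact h1.const _ _
  · exact h1.const _ _
  · exact h1.line _ _ _

theorem STEPLIM (h1 : PM_stmt) (h2 : SC_stmt) (h3 : DIM_stmt) (h4 : KPR_stmt) (h5 : ADJ1_stmt) :
    STEPLIM_stmt := by
  intro m s μ E hE M hM H1 H2
  obtain ⟨k1, k2, k3, k4⟩ := h4 μ m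
  -- the span at `t = 0`
  have claim : HS 4 (m + 1) ≤ E ⊔ Submodule.span ℂ (Set.range fun x => Fr μ M x 0) := by
    intro f hf
    have hfr : ∀ x, Fr μ M x 0 ∈ E ⊔ Submodule.span ℂ (Set.range fun x => Fr μ M x 0) :=
      fun x => Submodule.mem_sup_right (Submodule.subset_span ⟨x, rfl⟩)
    have hpf : pr μ f ∈ HS 3 (m + 1) := (h4 μ (m + 1)).2.2.1 f hf
    have := H2 hpf
    rw [Submodule.mem_sup] at this
    obtain ⟨y, hy, z, hz, hyz⟩ := this
    -- lift of y
    have hy' : (⨆ i, tauM ((M i).map (pr μ))) ≤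
        ((HS 4 (m + 1)) ⊓ Submodule.span ℂ (Set.range fun x => Fr μ M x 0)).map
          (pr μ).toLinearMap := by
      refine iSup_le fun i => ?_
      unfold tauM
      have hadj : ((M i).map (pr μ)).adjugate = (M i).adjugate.map (pr μ) := by
        have := RingHom.map_adjugate ((pr μ : MvPolynomial (Fin 4) ℂ →ₐ[ℂ] _) : MvPolynomial (Fin 4) ℂ →+* MvPolynomial (Fin 3) ℂ) (M i)
        simpa using this.symm
      have hX : ∀ j : Fin 3, ∃ j' : Fin 4, pr μ (X j') = X j := by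
        intro j
        refine ⟨j.succ, ?_⟩
        unfold pr
        rw [aeval_X]
        fin_cases j <;> rfl
      refine sup_le ?_ ?_
      · rw [Submodule.span_le]
        rintro _ ⟨p, rfl⟩
        obtain ⟨j', hj'⟩ := hX p.1
        refine ⟨X j' * (M i).adjugate p.2 0, ⟨isHomogeneous_X_mul_adjugate _ (hM i) _ _ _,
          Submodule.subset_span ⟨Sum.inr (Sum.inl (i, j', p.2)), rfl⟩⟩, ?_⟩
        change pr μ (X j' * (M i).adjugate p.2 0) =
          X p.1 * ((M i).map (pr μ)).adjugate p.2 0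
        rw [map_mul, hj', hadj, Matrix.map_apply]
      · rw [Submodule.span_le]
        rintro _ ⟨p, rfl⟩
        obtain ⟨j', hj'⟩ := hX p.1
        refine ⟨X j' * (M i).adjugate 0 p.2, ⟨isHomogeneous_X_mul_adjugate _ (hM i) _ _ _,
          Submodule.subset_span ⟨Sum.inl (i, j', p.2), rfl⟩⟩, ?_⟩
        change pr μ (X j' * (M i).adjugate 0 p.2) =
          X p.1 * ((M i).map (pr μ)).adjugate 0 p.2
        rw [map_mul, hj', hadj, Matrix.map_apply]
    obtain ⟨T, ⟨hT1, hT2⟩, hT3⟩ := hy' hy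
    obtain ⟨e, he, he2⟩ := hz
    have hT3' : pr μ T = y := hT3
    have he2' : pr μ e = z := he2
    have hz0 : pr μ (f - T - e) = 0 := by
      rw [map_sub, map_sub, hT3', he2', ← hyz]
      ring
    have hmem : f - T - e ∈ HS 4 (m + 1) :=
      Submodule.sub_mem _ (Submodule.sub_mem _ hf hT1) (hE he)
    obtain ⟨f', hf', hff'⟩ := k1 _ hmem hz0
    have hmul : ell μ * f' ∈ E ⊔ Submodule.span ℂ (Set.range fun x => Fr μ M x 0) := by
      have hcomap : (⨆ i, TT ((M i).submatrix Fin.succ Fin.succ)) ⊔ colon E m μ ≤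
          (E ⊔ Submodule.span ℂ (Set.range fun x => Fr μ M x 0)).comap
            (LinearMap.mulLeft ℂ (ell μ)) := by
        refine sup_le (iSup_le fun i => ?_) ?_
        · unfold TT
          rw [Submodule.span_le]
          rintro _ ⟨p, rfl⟩
          change ell μ * (X p.1 * ((M i).submatrix Fin.succ Fin.succ).adjugate p.2.1 p.2.2) ∈
            E ⊔ Submodule.span ℂ (Set.range fun x => Fr μ M x 0)
          have h := hfr (Sum.inr (Sum.inr (i, p.1, p.2.1, p.2.2)))
          have e2 : Fr μ M (Sum.inr (Sum.inr (i, p.1, p.2.1, p.2.2))) 0 =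
              ell μ * (X p.1 * ((M i).submatrix Fin.succ Fin.succ).adjugate p.2.1 p.2.2) := by
            show _ + (0 : ℂ) • _ = _
            rw [zero_smul, add_zero]
          rw [e2] at h
          exact h
        · intro g hg
          exact Submodule.mem_sup_left hg.1
      exact hcomap (H1 hf')
    have : f = ell μ * f' + T + e := by rw [← hff']; ring
    rw [this]
    exact Submodule.add_mem _ (Submodule.add_mem _ hmul (Submodule.mem_sup_right hT2))
      (Submodule.mem_sup_left he)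
  have : FiniteDimensional ℂ ↥(HS 4 (m + 1)) := (h3 3 (m + 1)).1
  have : FiniteDimensional ℂ ↥E := Submodule.finiteDimensional_of_le hE
  have hfin := h2 _ E (Ix m s) (Fr μ M) (Fr_poly h1 μ M) 0
  have hinf : (Set.univ \ {(0 : ℂ)}).Infinite :=
    Set.infinite_univ.sdiff (Set.finite_singleton 0)
  obtain ⟨t, ht, ht2⟩ := (hinf.sdiff hfin).nonempty
  have ht0 : t ≠ 0 := fun h => ht.2 (by simp [h])
  have hle : Module.finrank ℂ ↥(E ⊔ Submodule.span ℂ (Set.range fun x => Fr μ M x 0)) ≤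
      Module.finrank ℂ ↥(E ⊔ Submodule.span ℂ (Set.range fun x => Fr μ M x t)) :=
    not_lt.1 ht2
  have hup : ∀ t, E ⊔ Submodule.span ℂ (Set.range fun x => Fr μ M x t) ≤ HS 4 (m + 1) := by
    intro t
    refine sup_le hE ?_
    rw [Submodule.span_le]
    rintro _ ⟨x, rfl⟩
    exact Fr_HS μ M hM x t
  have heq0 : E ⊔ Submodule.span ℂ (Set.range fun x => Fr μ M x 0) = HS 4 (m + 1) :=
    le_antisymm (hup 0) claim
  have heqt : E ⊔ Submodule.span ℂ (Set.range fun x => Fr μ M x t) = HS 4 (m + 1) := by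
    refine Submodule.eq_of_le_of_finrank_le (hup t) ?_
    rw [← heq0]
    exact hle
  refine ⟨GG μ M t, GG_lin μ M hM t, ?_⟩
  rw [← heqt]
  refine sup_le le_sup_right ?_
  rw [Submodule.span_le]
  rintro _ ⟨x, rfl⟩
  exact Submodule.mem_sup_left (Fr_TT h5 μ M x t ht0)

end Pool.Agent.Helper9.DS
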